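import Mathlib

open Finset

namespace Pool.Agent.P.MP_a14ce1_nt

/-- product over a square of a symmetric sign function reduces to the diagonal -/
lemma prod_sq_diag (g : ℕ → ℝ) (hg : ∀ n, g n * g n = 1) (H : Finset ℕ) :
    ∏ b ∈ H, ∏ a ∈ H, g (b + a) = ∏ a ∈ H, g (a + a) := by
  classical
  induction H using Finset.induction_on with
  | empty => simp
  | insert c s hc ih =>
    rw [prod_insert hc, prod_insert hc, prod_insert hc]
    have h1 : ∏ b ∈ s, ∏ a ∈ insert c s, g (b + a)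
        = (∏ b ∈ s, g (b + c)) * ∏ b ∈ s, ∏ a ∈ s, g (b + a) := by
      rw [← prod_mul_distrib]
      exact prod_congr rfl fun b _ => by rw [prod_insert hc]
    rw [h1, ih]
    have h2 : (∏ a ∈ s, g (c + a)) * ∏ b ∈ s, g (b + c) = 1 := by
      rw [← prod_mul_distrib]
      exact prod_eq_one fun a _ => by rw [add_comm c a]; exact hg _
    calc g (c + c) * (∏ a ∈ s, g (c + a)) * ((∏ b ∈ s, g (b + c)) * ∏ a ∈ s, g (a + a))
        = g (c + c) * ((∏ a ∈ s, g (c + a)) * ∏ b ∈ s, g (b + c)) * ∏ a ∈ s, g (a + a) := by ring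
      _ = _ := by rw [h2, mul_one]

/-- covering count -/
lemma cover_le (d : ℕ → ℝ) (hd : ∀ n, 0 ≤ d n) (H : Finset ℕ) (L : ℕ) (hL : ∀ b ∈ H, b ≤ L)
    (m : ℕ) (hm0 : (H.filter Even).card ≤ m) (hm1 : (H.filter Odd).card ≤ m) (y z : ℕ) :
    ∑ n ∈ Ioc y z, ∑ b ∈ H, d (2 * n + b) ≤ m * ∑ t ∈ Ioc (2 * y) (2 * z + L), d t := by
  classical
  set T := Ioc (2 * y) (2 * z + L) with hT
  have key : ∀ b ∈ H, ∑ n ∈ Ioc y z, d (2 * n + b)
      ≤ ∑ t ∈ T, (if t % 2 = b % 2 then d t else 0) := by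
    intro b hb
    rw [← sum_filter]
    have hinj : Set.InjOn (fun n => 2 * n + b) (Ioc y z : Finset ℕ) := by
      intro u _ v _ h; simp only at h; omega
    rw [← sum_image hinj]
    apply sum_le_sum_of_subset_of_nonneg
    · intro t ht
      simp only [mem_image, mem_Ioc] at ht
      obtain ⟨n, ⟨h1, h2⟩, rfl⟩ := ht
      have := hL b hb
      simp only [mem_filter, hT, mem_Ioc]
      omega
    · intro t _ _; exact hd t
  rw [sum_comm]
  refine (sum_le_sum key).trans ?_
  rw [sum_comm, mul_sum]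
  apply sum_le_sum
  intro t _
  rw [← sum_filter, sum_const, nsmul_eq_mul]
  apply mul_le_mul_of_nonneg_right _ (hd t)
  rcases Nat.mod_two_eq_zero_or_one t with h | h
  · have : H.filter (fun b => t % 2 = b % 2) = H.filter Even := by
      apply filter_congr; intro b _; rw [Nat.even_iff, h]; exact eq_comm
    rw [this]; exact_mod_cast hm0
  · have : H.filter (fun b => t % 2 = b % 2) = H.filter Odd := by
      apply filter_congr; intro b _; rw [Nat.odd_iff, h]; exact eq_comm
    rw [this]; exact_mod_cast hm1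

/-- abstract dyadic induction -/
lemma dyadic (A : ℕ → ℝ) (m K : ℝ) (hm : 1 ≤ m) (hK : 0 ≤ K) (hA0 : ∀ N, 0 ≤ A N)
    (hmono : ∀ N, A (N / 2) ≤ A N)
    (hstep : ∀ N : ℕ, ((N / 2 : ℕ) : ℝ) - ((N / 2 / 2 : ℕ) : ℝ) - m * K
      ≤ (A (N / 2) - A (N / 2 / 2)) + m * (A N - A (N / 2))) :
    ∀ N : ℕ, ∀ θ : ℝ, 0 ≤ θ → θ ≤ 1 →
      (1 + θ) / (2 * (2 * m + 1)) * N - (K + 1) * (Nat.log 2 N + 1)
        ≤ θ * (A N - A (N / 2)) + A (N / 2) := by
  intro N
  induction N using Nat.strong_induction_on with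
  | _ N ih =>
    intro θ h0 h1
    have hmpos : 0 < m := by linarith
    set α : ℝ := 1 / (2 * (2 * m + 1)) with hα
    have hαpos : 0 < α := by positivity
    have hα1 : 2 * α ≤ 1 := by
      rw [hα, mul_one_div, div_le_one (by positivity)]; linarith
    have e1 : (1 + θ) / (2 * (2 * m + 1)) = (1 + θ) * α := by rw [hα]; ring
    rw [e1]
    have hr : 0 ≤ θ * (A N - A (N / 2)) + A (N / 2) :=
      add_nonneg (mul_nonneg h0 (sub_nonneg.2 (hmono N))) (hA0 _)
    by_cases hN : N < 2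
    · have hN' : (N : ℝ) ≤ 1 := by exact_mod_cast (by omega : N ≤ 1)
      have hN0 : (0 : ℝ) ≤ N := Nat.cast_nonneg N
      have hl : (0 : ℝ) ≤ (Nat.log 2 N : ℝ) := Nat.cast_nonneg _
      have : (1 + θ) * α * N ≤ 1 := by
        have : (1 + θ) * α ≤ 1 := by nlinarith
        have h3 : 0 ≤ (1 + θ) * α := by positivity
        nlinarith
      nlinarith
    · push Not at hN
      have hlog : (Nat.log 2 N : ℝ) = Nat.log 2 (N / 2) + 1 := by
        rw [Nat.log_of_one_lt_of_le (by norm_num) hN]; push_cast; ring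
      have hθ' : 0 ≤ 1 - θ / m := by
        rw [sub_nonneg, div_le_one hmpos]; linarith
      have hθ'' : 1 - θ / m ≤ 1 := by
        have : 0 ≤ θ / m := by positivity
        linarith
      have h2 := ih (N / 2) (by omega) (1 - θ / m) hθ' hθ''
      have e2 : (1 + (1 - θ / m)) / (2 * (2 * m + 1)) = (2 - θ / m) * α := by rw [hα]; ring
      rw [e2] at h2
      have h3 := hstep N
      set N1 : ℝ := ((N / 2 : ℕ) : ℝ) with hN1
      set N2 : ℝ := ((N / 2 / 2 : ℕ) : ℝ) with hN2
      have hN1' : (N : ℝ) - 1 ≤ 2 * N1 := by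
        have : N ≤ 2 * (N / 2) + 1 := by omega
        have : (N : ℝ) ≤ 2 * N1 + 1 := by rw [hN1]; exact_mod_cast this
        linarith
      have hN2' : 2 * N2 ≤ N1 := by
        have : 2 * (N / 2 / 2) ≤ N / 2 := by omega
        rw [hN1, hN2]; exact_mod_cast this
      have hq : 0 ≤ θ / m := by positivity
      have h4 : θ / m * (N1 - N2 - m * K)
          ≤ θ / m * ((A (N / 2) - A (N / 2 / 2)) + m * (A N - A (N / 2))) :=
        mul_le_mul_of_nonneg_left h3 hq
      have e3 : θ / m * m = θ := by field_simp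
      have e4 : θ / m * ((A (N / 2) - A (N / 2 / 2)) + m * (A N - A (N / 2)))
          = θ / m * (A (N / 2) - A (N / 2 / 2)) + θ * (A N - A (N / 2)) := by
        rw [mul_add, ← mul_assoc, e3]
      have e5 : θ / m * (N1 - N2 - m * K) = θ / m * (N1 - N2) - θ * K := by
        rw [mul_sub, ← mul_assoc, e3]
      have e6 : θ / m * (1 / 2 - α) = 2 * θ * α := by
        rw [hα]; field_simp; ring
      have h5 : θ / m * (N1 / 2) ≤ θ / m * (N1 - N2) :=
        mul_le_mul_of_nonneg_left (by linarith) hq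
      have h6 : θ / m * (N1 / 2) + (2 - θ / m) * α * N1 = (1 + θ) * α * (2 * N1) := by
        have : θ / m * (N1 / 2) + (2 - θ / m) * α * N1
            = (θ / m * (1 / 2 - α)) * N1 + 2 * α * N1 := by ring
        rw [this, e6]; ring
      have h7 : (1 + θ) * α * (N - 1) ≤ (1 + θ) * α * (2 * N1) :=
        mul_le_mul_of_nonneg_left hN1' (by positivity)
      have h8 : (1 + θ) * α ≤ 1 := by nlinarith
      have h9 : θ * K ≤ K := by nlinarith
      rw [hlog]
      nlinarith

/-- main abstract bound -/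
theorem frob_bound (f : ℕ → ℝ) (hf : ∀ n, f n * f n = 1) (s : ℝ)
    (h2 : ∀ n, 1 ≤ n → f (2 * n) = s * f n) (H : Finset ℕ) (hH : H.Nonempty) (ε : ℝ)
    (hε : ε * ε = 1) (hsign : ε ^ (H.card + 1) * s ^ H.card = -1)
    (m : ℕ) (hm0 : (H.filter Even).card ≤ m) (hm1 : (H.filter Odd).card ≤ m) :
    ∃ C : ℝ, ∀ N : ℕ, 2 ≤ N →
      ε * ∑ n ∈ Icc 1 N, ∏ a ∈ H, f (n + a) ≤ (1 - 2 / (2 * m + 1)) * N + C * Real.log N := by
  classical
  set h : ℕ → ℝ := fun n => ∏ a ∈ H, f (n + a) with hh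
  have hsq : ∀ n, h n * h n = 1 := by
    intro n; simp only [hh]; rw [← prod_mul_distrib]; exact prod_eq_one fun a _ => hf _
  set d : ℕ → ℝ := fun n => (1 - ε * h n) / 2 with hd
  have hεh : ∀ n, ε * h n = 1 ∨ ε * h n = -1 := by
    intro n
    have : (ε * h n) * (ε * h n) = 1 := by
      calc _ = (ε * ε) * (h n * h n) := by ring
        _ = 1 := by rw [hε, hsq, one_mul]
    exact mul_self_eq_one_iff.1 this
  have hd01 : ∀ n, d n = 0 ∨ d n = 1 := by
    intro n; rcases hεh n with e | e <;> simp only [hd, e] <;> norm_num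
  have hd0 : ∀ n, 0 ≤ d n := fun n => by rcases hd01 n with e | e <;> rw [e] <;> norm_num
  have hd1 : ∀ n, d n ≤ 1 := fun n => by rcases hd01 n with e | e <;> rw [e] <;> norm_num
  have hrel : ∀ n, 1 ≤ n → ∏ b ∈ H, h (2 * n + b) = s ^ H.card * h n := by
    intro n hn
    have := prod_sq_diag (fun t => f (2 * n + t)) (fun t => hf _) H
    simp only [hh]
    simp only [← add_assoc] at this
    rw [this, ← prod_const, ← prod_mul_distrib]
    apply prod_congr rfl
    intro a _
    rw [← h2 (n + a) (by omega)]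
    congr 1; ring
  have hloc : ∀ n, 1 ≤ n → 1 ≤ d n + ∑ b ∈ H, d (2 * n + b) := by
    intro n hn
    by_contra hcon
    push Not at hcon
    have hs0 : 0 ≤ ∑ b ∈ H, d (2 * n + b) := sum_nonneg fun b _ => hd0 _
    have hn0 : d n = 0 := by
      rcases hd01 n with e | e
      · exact e
      · linarith
    have hb0 : ∀ b ∈ H, d (2 * n + b) = 0 := by
      intro b hb
      rcases hd01 (2 * n + b) with e | e
      · exact e
      · have : d (2 * n + b) ≤ ∑ b ∈ H, d (2 * n + b) :=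
          single_le_sum (f := fun b => d (2 * n + b)) (fun b _ => hd0 _) hb
        linarith
    have conv : ∀ t, d t = 0 → h t = ε := by
      intro t ht
      have : ε * h t = 1 := by simp only [hd] at ht; linarith
      calc h t = (ε * ε) * h t := by rw [hε, one_mul]
        _ = ε * (ε * h t) := by ring
        _ = ε := by rw [this, mul_one]
    have e1 := hrel n hn
    rw [prod_congr rfl (fun b hb => conv _ (hb0 b hb)), prod_const, conv n hn0] at e1
    have hεk : ε ^ H.card * ε ^ H.card = 1 := by rw [← mul_pow, hε, one_pow]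
    have : (1 : ℝ) = -1 := by
      calc (1 : ℝ) = ε ^ H.card * ε ^ H.card := hεk.symm
        _ = ε ^ H.card * (s ^ H.card * ε) := by rw [← e1]
        _ = ε ^ (H.card + 1) * s ^ H.card := by ring
        _ = -1 := hsign
    norm_num at this
  obtain ⟨L, hL⟩ : ∃ L, ∀ b ∈ H, b ≤ L := ⟨H.sup id, fun b hb => le_sup (f := id) hb⟩
  have hm : 1 ≤ m := by
    obtain ⟨b, hb⟩ := hH
    rcases Nat.even_or_odd b with e | e
    · exact le_trans (card_pos.2 ⟨b, mem_filter.2 ⟨hb, e⟩⟩) hm0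
    · exact le_trans (card_pos.2 ⟨b, mem_filter.2 ⟨hb, e⟩⟩) hm1
  set A : ℕ → ℝ := fun N => ∑ n ∈ Ioc 0 N, d n with hA
  have hAdiff : ∀ u v, u ≤ v → A v - A u = ∑ n ∈ Ioc u v, d n := by
    intro u v huv
    simp only [hA]
    rw [← sum_Ioc_consecutive d (Nat.zero_le u) huv]; ring
  have hAle : ∀ u v, u ≤ v → A u ≤ A v := by
    intro u v huv
    have := hAdiff u v huv
    have h0 : 0 ≤ ∑ n ∈ Ioc u v, d n := sum_nonneg fun n _ => hd0 n
    linarith
  have hAle' : ∀ u v, A (u + v) ≤ A u + v := by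
    intro u v
    have := hAdiff u (u + v) (by omega)
    have h0 : ∑ n ∈ Ioc u (u + v), d n ≤ ∑ n ∈ Ioc u (u + v), (1 : ℝ) :=
      sum_le_sum fun n _ => hd1 n
    simp at h0
    linarith
  have hstep : ∀ N : ℕ, ((N / 2 : ℕ) : ℝ) - ((N / 2 / 2 : ℕ) : ℝ) - m * ((L : ℝ) + 1)
      ≤ (A (N / 2) - A (N / 2 / 2)) + m * (A N - A (N / 2)) := by
    intro N
    set z := N / 2 with hz
    set y := z / 2 with hy
    have hyz : y ≤ z := by omega
    have c1 := cover_le d hd0 H L hL m hm0 hm1 y z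
    have c2 : ∑ n ∈ Ioc y z, (1 : ℝ) ≤ ∑ n ∈ Ioc y z, (d n + ∑ b ∈ H, d (2 * n + b)) :=
      sum_le_sum fun n hn => hloc n (by have := (mem_Ioc.1 hn).1; omega)
    rw [sum_add_distrib, ← hAdiff y z hyz] at c2
    simp only [sum_const, Nat.card_Ioc, nsmul_eq_mul, mul_one] at c2
    rw [Nat.cast_sub hyz] at c2
    rw [← hAdiff (2 * y) (2 * z + L) (by omega)] at c1
    have c3 : A (2 * z + L) ≤ A N + L := le_trans (hAle _ (N + L) (by omega)) (hAle' N L)
    have c4 : A z ≤ A (2 * y) + 1 := by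
      have := hAle' (2 * y) 1
      have h' := hAle z (2 * y + 1) (by omega)
      push_cast at this
      linarith
    have c5 : (m : ℝ) * (A (2 * z + L) - A (2 * y)) ≤ m * (A N - A z + (L + 1)) :=
      mul_le_mul_of_nonneg_left (by linarith) (Nat.cast_nonneg m)
    nlinarith
  have main := dyadic A m (L + 1) (by exact_mod_cast hm) (by positivity)
    (fun N => sum_nonneg fun n _ => hd0 n) (fun N => hAle _ _ (Nat.div_le_self _ _)) hstep
  refine ⟨2 * ((L : ℝ) + 2) * (2 / Real.log 2), fun N hN => ?_⟩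
  have m1 := main N 1 zero_le_one le_rfl
  have hS : ε * ∑ n ∈ Icc 1 N, h n = N - 2 * A N := by
    have : Icc 1 N = Ioc 0 N := rfl
    simp only [hA, hd, this]
    rw [mul_sum, mul_sum]
    have : (N : ℝ) = ∑ n ∈ Ioc 0 N, (1 : ℝ) := by simp
    conv_rhs => rw [this]
    rw [← sum_sub_distrib]
    exact sum_congr rfl fun n _ => by ring
  rw [hS]
  have hlog2 : 0 < Real.log 2 := Real.log_pos (by norm_num)
  have hNpos : (0 : ℝ) < N := by exact_mod_cast (by omega : 0 < N)
  have l1 : (Nat.log 2 N : ℝ) * Real.log 2 ≤ Real.log N := by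
    have := Nat.pow_log_le_self 2 (by omega : N ≠ 0)
    have h' : ((2 : ℝ) ^ Nat.log 2 N) ≤ N := by exact_mod_cast this
    have := Real.log_le_log (by positivity) h'
    rwa [Real.log_pow] at this
  have l2 : Real.log 2 ≤ Real.log N := Real.log_le_log (by norm_num) (by exact_mod_cast hN)
  have l3 : (Nat.log 2 N : ℝ) + 1 ≤ 2 / Real.log 2 * Real.log N := by
    rw [div_mul_eq_mul_div, le_div_iff₀ hlog2]; nlinarith
  have l4 : ((L : ℝ) + 1 + 1) * (Nat.log 2 N + 1) ≤ (L + 2) * (2 / Real.log 2 * Real.log N) := by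
    have : ((L : ℝ) + 1 + 1) = L + 2 := by ring
    rw [this]
    exact mul_le_mul_of_nonneg_left l3 (by positivity)
  have e : ((1 : ℝ) + 1) / (2 * (2 * m + 1)) = 1 / (2 * m + 1) := by field_simp; ring
  rw [e] at m1
  have e' : (1 - 2 / (2 * (m : ℝ) + 1)) * N = N - 2 * (1 / (2 * m + 1) * N) := by ring
  rw [e']
  nlinarith

end Pool.Agent.P.MP_a14ce1_nt
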