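import Mathlib
import Pool.Agent.P.MP_a14ce1_nt.Frob

namespace Pool.Agent.P.MP_a14ce1_nt.AllShifts

/-- Explicit bound, valid at every scale N, for the correlation of the Liouville function along an
arbitrary finite set H of shifts.  The sign e is -1 (lower bound, any H) or, when H has odd
size, also +1 (upper bound). -/
theorem result (H : Finset ℕ) (hH : H.Nonempty) (e : ℝ) (he : e = -1 ∨ (e = 1 ∧ Odd H.card)) :
    ∃ C : ℝ, ∀ N : ℕ, 2 ≤ N →
      e * ∑ n ∈ Finset.Icc 1 N, ∏ a ∈ H, (-1 : ℝ) ^ ArithmeticFunction.cardFactors (n + a)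
        ≤ (1 - 2 / (2 * ((max (H.filter Even).card (H.filter Odd).card : ℕ) : ℝ) + 1)) * N
          + C * Real.log N := by
  apply Pool.Agent.P.MP_a14ce1_nt.frob_bound
    (fun n => (-1 : ℝ) ^ ArithmeticFunction.cardFactors n) _ (-1) _ H hH e _ _ _
    (le_max_left _ _) (le_max_right _ _)
  · intro n
    rw [← mul_pow]; norm_num
  · intro n hn
    rw [ArithmeticFunction.cardFactors_mul (by norm_num) (by omega),
      ArithmeticFunction.cardFactors_apply_prime Nat.prime_two, pow_add, pow_one]
  · rcases he with rfl | ⟨rfl, _⟩ <;> norm_num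
  · rcases he with rfl | ⟨rfl, h⟩
    · rw [← pow_add]
      exact Odd.neg_one_pow ⟨H.card, by ring⟩
    · rw [one_pow, one_mul]; exact h.neg_one_pow

end Pool.Agent.P.MP_a14ce1_nt.AllShifts
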