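import Pool.Agent.P.MP_a14ce1_nt.GI.Main
import Pool.Agent.P.MP_a14ce1_nt.IV.All0
import Pool.Agent.P.MP_a14ce1_nt.IV.ESW
import Pool.Agent.P.MP_a14ce1_nt.IV.End
import Pool.Agent.P.MP_a14ce1_nt.IV.Init
import Pool.Agent.P.MP_a14ce1_nt.IV.Iter
import Pool.Agent.P.MP_a14ce1_nt.IV.Low
import Pool.Agent.P.MP_a14ce1_nt.IV.Maj
import Pool.Agent.P.MP_a14ce1_nt.IV.Tilt
import Pool.Agent.P.MP_a14ce1_nt.IV.WinAx
import Pool.Agent.P.MP_a14ce1_nt.Nil.AxGI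
import Pool.Agent.P.MP_a14ce1_nt.Nil.Cube2
import Pool.Agent.P.MP_a14ce1_nt.Nil.Dec.All
import Pool.Agent.P.MP_a14ce1_nt.Nil.ExtFin
import Pool.Agent.P.MP_a14ce1_nt.Nil.ExtK
import Pool.Agent.P.MP_a14ce1_nt.Nil.FsK
import Pool.Agent.P.MP_a14ce1_nt.Nil.Pl.All
import Pool.Agent.P.MP_a14ce1_nt.V.All
import Pool.Agent.P.MP_e30989_nt.W.All

/-! Assembly: local uniformity and the correlations of the Liouville function. -/

open Finset Filter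

namespace Pool.Agent.P.MP_a14ce1_nt.Top

open Pool.Agent.P.MP_e30989_nt

theorem s_fsK : Nil.S_fsK := fun _ _ _ _ _ _ _ _ hg _ _ _ _ hP hc hcP _ hx =>
  Nil.fsK hg hP hc hcP hx

theorem s_extK : Nil.S_extK :=
  fun _ _ _ _ _ _ _ _ hg _ _ _ _ hP hR hPV _ _ hv hvV hcop _ _ hΨ _ hw hT _ hF _ hx _ hd =>
    Nil.extK hg hg hP hR hPV hv hvV hcop hΨ hw hT hF hx hd

theorem giAx_all : Ax.S_GIAx :=
  AxGI.giAx GI.gi_all (Nil.ax_fs_of s_fsK) (Nil.ax_ext_of s_extK) Nil.Dc.decAx_AT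

theorem tilt_all : Ax.S_Tilt :=
  IV.tiltAx IV.hull (IV.esw IV.hull Nil.ES.esc IV.fsW IV.extW) (IV.endp IV.ew IV.maj)
    (IV.low IV.hull IV.ew) (IV.tilt IV.sec1_all (IV.w1 IV.bad IV.conv) (IV.w2 IV.bad) IV.ew)

/-- local uniformity of unimodular completely multiplicative functions with small short means -/
theorem lu_all : W.S_LU :=
  IV.lu0 giAx_all (IV.lift tilt_all (IV.iter Pl.plain_all Ch.m1)) (IV.init IV.hull (IV.w3 IV.conv))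

theorem lu_lam : V.LU V.lamC atTop := lu_all _ _ le_rfl W.ucm_lam W.rmrh_lam

end Pool.Agent.P.MP_a14ce1_nt.Top
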